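import Pool.Agent.Run7.h700.KC.Stm
import Pool.Agent.H402R2.SubMean

set_option autoImplicit false

/-!
# Piece MV of project KC (from the starting file H402R2/SubMean)
-/

namespace Pool.Agent.Run7.h824.KC

open Metric Set Pool.Agent.Run7.h700.KC
open scoped ENNReal Real

theorem t_MV : S_MV := by
  intro f a d p hd hp hf
  have hp0 : 0 < p := by linarith
  have h := Pool.Agent.H402R2.SubMean.rpow_mul_le_lintegral (w := a) hd hp0 hf
  refine le_trans (le_of_eq ?_) h
  rw [← ofReal_norm, ENNReal.ofReal_rpow_of_nonneg (norm_nonneg _) hp0.le,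
    ENNReal.ofReal_mul (by positivity : (0 : ℝ) ≤ ‖f a‖ ^ p), mul_comm]

end Pool.Agent.Run7.h824.KC
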